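import Pool.Agent.helper69.LN.Spec

/-! Row ln:ORC: a circuit for a function which is monotone in the first `u` inputs, whose NOT gates
do not depend on these inputs. -/

set_option autoImplicit false

namespace Pool.Agent.LN

open Finset Pool.Agent.helper38.Neg Pool.Agent.helper55.NT

/-- The first `u` inputs are replaced by `a`. -/
def ORC_mix {n u : ℕ} (a : Fin u → Bool) (x : Fin n → Bool) : Fin n → Bool :=
  fun i => if h : (i : ℕ) < u then a ⟨i, h⟩ else x i

lemma ORC_mix_agree {n u : ℕ} (a : Fin u → Bool) {x y : Fin n → Bool} (h : AgreeFrom u x y) :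
    ORC_mix a x = ORC_mix a y := by
  funext i
  unfold ORC_mix
  by_cases hi : (i : ℕ) < u
  · simp [hi]
  · simp only [hi, dite_false]
    exact h i (by omega)

lemma ORC_cons {n : ℕ} {L : List (Fn n)} {g f : Fn n} (h : Op L f) : Op (g :: L) f :=
  h.mono fun _ h => List.mem_cons_of_mem _ h

lemma ORC_head {n : ℕ} {L : List (Fn n)} {g : Fn n} : Op (g :: L) g := Or.inl List.mem_cons_self

/-- The gates of `C` with constants for the first `u` inputs. -/
lemma ORC_sim {n s u : ℕ} (C : Circuit n s) (a : Fin u → Bool) :
    ∀ L : List (Fn n), SF u L → Op L (fun _ => false) → Op L (fun _ => true) →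
    ∃ L' : List (Fn n), SF u L' ∧ L'.length ≤ L.length + s ∧ (∀ f, Op L f → Op L' f) ∧
      ∀ j : Fin (n + s), Op L' (fun x => C.val (ORC_mix a x) j) := by
  induction C with
  | nil =>
    intro L hL hf ht
    refine ⟨L, hL, by omega, fun _ h => h, fun j => ?_⟩
    by_cases hj : (j : ℕ) < u
    · have h1 : (fun x : Fin n → Bool => (Circuit.nil : Circuit n 0).val (ORC_mix a x) j) =
          fun _ => a ⟨j, hj⟩ := by
        funext x
        simp only [Circuit.val]
        unfold ORC_mix
        rw [dif_pos hj]
      rw [h1]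
      cases a ⟨j, hj⟩
      · exact hf
      · exact ht
    · refine Or.inr ⟨j, ?_⟩
      funext x
      simp only [Circuit.val]
      unfold ORC_mix
      rw [dif_neg hj]
  | @snoc s C g ih =>
    intro L hL hf ht
    obtain ⟨L1, h1, h2, h3, h4⟩ := ih L hL hf ht
    have key : SF u ((fun x => g.eval (C.val (ORC_mix a x))) :: L1) := by
      cases g with
      | const b => exact SF.const b h1
      | and i j => exact SF.and h1 (h4 i) (h4 j)
      | or i j => exact SF.or h1 (h4 i) (h4 j)
      | not i =>
        refine SF.not h1 (h4 i) fun x y hxy => ?_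
        rw [ORC_mix_agree a hxy]
    refine ⟨_, key, ?_, fun f hf => ORC_cons (h3 f hf), fun j => ?_⟩
    · simp only [List.length_cons]
      omega
    · induction j using Fin.lastCases with
      | last =>
        have : (fun x => (Circuit.snoc C g).val (ORC_mix a x) (Fin.last (n + s))) =
            fun x => g.eval (C.val (ORC_mix a x)) := by
          funext x
          simp [Circuit.val]
        exact this ▸ ORC_head
      | cast j =>
        have : (fun x => (Circuit.snoc C g).val (ORC_mix a x) (Fin.castSucc j)) =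
            fun x => C.val (ORC_mix a x) j := by
          funext x
          simp [Circuit.val]
        exact this ▸ ORC_cons (h4 j)

/-- A conjunction of variables. -/
lemma ORC_conj {n u : ℕ} (l : List (Fin n)) :
    ∀ L : List (Fn n), SF u L → Op L (fun _ => true) →
    ∃ L' : List (Fn n), SF u L' ∧ L'.length ≤ L.length + l.length ∧ (∀ f, Op L f → Op L' f) ∧
      Op L' (fun x => l.all fun i => x i) := by
  induction l with
  | nil =>
    intro L hL ht
    exact ⟨L, hL, by simp, fun _ h => h, ht⟩
  | cons i l ih =>
    intro L hL ht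
    obtain ⟨L1, h1, h2, h3, h4⟩ := ih L hL ht
    refine ⟨_, SF.and h1 (Or.inr ⟨i, rfl⟩) h4, ?_, fun f hf => ORC_cons (h3 f hf), ?_⟩
    · simp only [List.length_cons]
      omega
    · have : (fun x : Fin n → Bool => (i :: l).all fun i => x i) =
          fun x => x i && l.all fun i => x i := by
        funext x
        simp
      rw [this]
      exact ORC_head

/-- The condition of the term of `a`. -/
def ORC_P {n s u : ℕ} (C : Circuit n s) (o : Fin (n + s)) (a : Fin u → Bool)
    (x : Fin n → Bool) : Prop :=
  (∀ i : Fin n, ∀ h : (i : ℕ) < u, a ⟨i, h⟩ = true → x i = true) ∧ C.val (ORC_mix a x) o = true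

/-- The term of `a`. -/
lemma ORC_term {n s u : ℕ} (C : Circuit n s) (o : Fin (n + s)) (a : Fin u → Bool)
    (L : List (Fn n)) (hL : SF u L) (hf : Op L (fun _ => false)) (ht : Op L (fun _ => true)) :
    ∃ (L' : List (Fn n)) (t : Fn n), SF u L' ∧ L'.length ≤ L.length + (s + u + 1) ∧
      (∀ f, Op L f → Op L' f) ∧ Op L' t ∧ ∀ x, t x = true ↔ ORC_P C o a x := by
  classical
  obtain ⟨L1, h1, h2, h3, h4⟩ := ORC_sim C a L hL hf ht
  set A : Finset (Fin n) := univ.filter (fun i : Fin n => ∃ h : (i : ℕ) < u, a ⟨i, h⟩ = true)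
    with hA
  have hAc : A.card ≤ u := by
    have : A.card ≤ (Finset.range u).card := by
      refine Finset.card_le_card_of_injOn (fun i : Fin n => (i : ℕ)) ?_ ?_
      · intro i hi
        have hi' : i ∈ A := hi
        rw [hA, Finset.mem_filter] at hi'
        obtain ⟨_, h, _⟩ := hi'
        exact Finset.mem_coe.2 (Finset.mem_range.2 h)
      · intro i _ j _ hij
        exact Fin.ext hij
    simpa using this
  obtain ⟨L2, g1, g2, g3, g4⟩ := ORC_conj A.toList L1 h1 (h3 _ ht)
  refine ⟨_, _, SF.and g1 g4 (g3 _ (h4 o)), ?_, fun f hf => ORC_cons (g3 f (h3 f hf)), ORC_head, ?_⟩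
  · simp only [List.length_cons]
    rw [Finset.length_toList] at g2
    omega
  · intro x
    unfold ORC_P
    rw [Bool.and_eq_true, List.all_eq_true]
    refine and_congr_left fun _ => ?_
    constructor
    · intro h i hi ha
      exact h i (by rw [Finset.mem_toList, hA, Finset.mem_filter]; exact ⟨mem_univ _, hi, ha⟩)
    · intro h i hi
      rw [Finset.mem_toList, hA, Finset.mem_filter] at hi
      obtain ⟨_, h1, h2⟩ := hi
      exact h i h1 h2

/-- The disjunction of the terms of all `a` in `S`. -/
lemma ORC_or {n s u : ℕ} (C : Circuit n s) (o : Fin (n + s)) (S : Finset (Fin u → Bool)) :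
    ∃ (L : List (Fn n)) (t : Fn n), SF u L ∧ L.length ≤ S.card * (s + u + 8) + 2 ∧
      Op L (fun _ => false) ∧ Op L (fun _ => true) ∧ Op L t ∧
      ∀ x, t x = true ↔ ∃ a ∈ S, ORC_P C o a x := by
  classical
  induction S using Finset.induction_on with
  | empty =>
    refine ⟨[fun _ => false, fun _ => true], fun _ => false,
      SF.const false (SF.const true SF.nil), by simp, ORC_head, ORC_cons ORC_head, ORC_head, ?_⟩
    intro x
    simp
  | @insert a S ha ih =>
    obtain ⟨L, t, h1, h2, h3, h4, h5, h6⟩ := ih
    obtain ⟨L1, t1, g1, g2, g3, g4, g5⟩ := ORC_term C o a L h1 h3 h4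
    refine ⟨_, _, SF.or g1 g4 (g3 _ h5), ?_, ORC_cons (g3 _ h3), ORC_cons (g3 _ h4), ORC_head, ?_⟩
    · rw [Finset.card_insert_of_notMem ha]
      simp only [List.length_cons]
      have : (S.card + 1) * (s + u + 8) = S.card * (s + u + 8) + (s + u + 8) := by ring
      omega
    · intro x
      rw [Bool.or_eq_true, g5, h6]
      simp only [Finset.mem_insert, exists_eq_or_imp]

theorem ORC (h1 : SFC_stmt) : ORC_stmt := by
  classical
  intro n s u C o f hC hf
  obtain ⟨L, t, hL, hlen, -, -, ht, hx⟩ := ORC_or C o (univ : Finset (Fin u → Bool))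
  obtain ⟨C', hfree, hval⟩ := h1 n u L hL
  obtain ⟨k, hk⟩ := hval t ht
  refine ⟨L.length, ?_, C', k, fun x => ?_, hfree⟩
  · simpa using hlen
  · rw [hk, hx]
    constructor
    · rintro ⟨a, -, hP1, hP2⟩
      refine hf (ORC_mix a x) x ?_ ?_ ((hC _).1 hP2)
      · intro i
        unfold ORC_mix
        by_cases hi : (i : ℕ) < u
        · rw [dif_pos hi]
          exact Bool.le_iff_imp.2 (hP1 i hi)
        · rw [dif_neg hi]
      · intro i hi
        unfold ORC_mix
        rw [dif_neg (by omega)]
    · intro hfx
      refine ⟨fun i => if h : (i : ℕ) < n then x ⟨i, h⟩ else false, mem_univ _, ?_, ?_⟩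
      · intro i hi ha
        simpa using ha
      · have : ORC_mix (fun i : Fin u => if h : (i : ℕ) < n then x ⟨i, h⟩ else false) x = x := by
          funext i
          unfold ORC_mix
          by_cases hi : (i : ℕ) < u
          · rw [dif_pos hi]
            simp
          · rw [dif_neg hi]
        rw [this]
        exact (hC x).2 hfx

end Pool.Agent.LN
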