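import Pool.Agent.helper69.LN.TSpec

set_option autoImplicit false

namespace Pool.Agent.LN

open Finset Pool.Agent.helper38.Neg Pool.Agent.helper55.NT

theorem TUP_count (u n : ℕ) : ∑ i ∈ Finset.range n, (if i < u then 0 else 1) = n - min u n := by
  induction n with
  | zero => simp
  | succ n ih =>
    rw [Finset.sum_range_succ, ih]
    split_ifs with h <;> omega

theorem TUP_wt (u n : ℕ) (z : Fin n → Bool) : n - min u n ≤ wt (io u z) ∧ wt (io u z) ≤ n := by
  have e : wt (io u z) = ∑ i : Fin n, ((if z i = true then 1 else 0) +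
      (if (if (i : ℕ) < u then false else !(z i)) = true then 1 else 0)) := by
    unfold wt
    rw [Finset.card_filter, Fin.sum_univ_add, Finset.sum_add_distrib]
    unfold io
    simp only [Fin.append_left, Fin.append_right]
  constructor
  · rw [e, ← TUP_count u n, ← Fin.sum_univ_eq_sum_range (fun i => if i < u then 0 else 1) n]
    apply Finset.sum_le_sum
    intro i _
    by_cases h : (i : ℕ) < u <;> cases z i <;> simp [h]
  · rw [e]
    have : ∑ i : Fin n, ((if z i = true then 1 else 0) +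
        (if (if (i : ℕ) < u then false else !(z i)) = true then 1 else 0)) ≤ ∑ _i : Fin n, 1 := by
      apply Finset.sum_le_sum
      intro i _
      by_cases h : (i : ℕ) < u <;> cases z i <;> simp [h]
    simpa using this

theorem TUP_r (u n b r : ℕ) (hb : 1 ≤ b) (h : min u n + 1 ≤ b * 2 ^ r) :
    ∃ r' ≤ r, 2 ^ r' ≤ 2 * (n + n) + 2 ∧ min u n + 1 ≤ b * 2 ^ r' := by
  by_cases h1 : 2 ^ r ≤ 2 * (n + n) + 2
  · exact ⟨r, le_rfl, h1, h⟩
  · push Not at h1
    have hex : ∃ k, min u n + 1 ≤ 2 ^ k := ⟨r, by omega⟩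
    classical
    refine ⟨Nat.find hex, Nat.find_min' hex (by omega), ?_, ?_⟩
    · by_cases h0 : Nat.find hex = 0
      · rw [h0]; omega
      · have h2 : ¬ (min u n + 1 ≤ 2 ^ (Nat.find hex - 1)) := Nat.find_min hex (by omega)
        have h3 : 2 ^ Nat.find hex = 2 * 2 ^ (Nat.find hex - 1) := by
          rw [← pow_succ', Nat.sub_add_cancel (by omega)]
        rw [h3]
        omega
    · have h2 := Nat.find_spec hex
      calc min u n + 1 ≤ 2 ^ Nat.find hex := h2
        _ ≤ b * 2 ^ Nat.find hex := Nat.le_mul_of_pos_left _ (by omega)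

theorem TUP (hTSC : TSC_stmt) (hTTR : TTR_stmt) (hTSI : TSI_stmt) (hTFF : TFF_stmt) : TUP_stmt := by
  intro n s u b r C o f hC hm hb hbr
  obtain ⟨r', hr', hr1, hr2⟩ := TUP_r u n b r hb hbr
  obtain ⟨g, hg1, hg2, s1, hs1, C1, o1, hC1⟩ := hTFF n s u C o f hC hm
  obtain ⟨h, hrel, hh⟩ := hTSI (n + n) s1 g hg1 C1 o1 hC1 (n - min u n) b r' hb hr1
  obtain ⟨L', q', h1, h2, h3, h4, h5⟩ := hrel [] 0 SL.nil (fun f hf => absurd hf (Set.notMem_empty f))
  obtain ⟨L2, k1, k2, k3⟩ := hTTR n u q' L' h1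
  obtain ⟨C2, ⟨S, hS1, hS2⟩, l2⟩ := hTSC n u q' L2 k1
  obtain ⟨k, hk⟩ := l2 _ (k3 h (h5 h rfl))
  refine ⟨L2.length, ?_, C2, k, ?_, S, by omega, hS2⟩
  · have e1 : 18 * b * (s1 + 1) * (n + n + 2) ^ (b + 2) ≤ 18 * b * (s + 5 * n + 6) * (n + n + 2) ^ (b + 2) := by
      apply Nat.mul_le_mul_right
      apply Nat.mul_le_mul_left
      omega
    simp only [List.length_nil, zero_add] at h3
    omega
  · intro x
    rw [hk x]
    have w := TUP_wt u n x
    have hmin : min u n ≤ n := min_le_right _ _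
    rw [hh (io u x) w.1 (by omega)]
    exact hg2 x

end Pool.Agent.LN
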